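import Pool.Agent.H30.VM.TargetsB
import Pool.Agent.H52.VG.DG

/-!
MP_70ba79_ag, board vmp_modules, module DGT: degenerate restrictions are exceptional.
-/

set_option autoImplicit false

namespace Pool.Agent.H91.VMP

open MvPolynomial SC Pool.Agent.H27.LV Pool.Agent.H17.VG Pool.Agent.H30.VM
open Pool.Agent.H17.CI (Tup IlT PQT TxT frmT upT RatT)
open Pool.Agent.H52.VG (ode dir_comb res_add res_mul res_C res_deriv res_euler res_coeff_zero)

theorem pf_DGT (_hRS : Pool.Agent.H17.VG.T_RS) : T_DGT := by
  intro K _ _ n ι i₀ e F Z x y w hi₀ hF hZ _ hE hw hres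
  rw [Submodule.mem_span_pair] at hw
  obtain ⟨w0, w1, rfl⟩ := hw
  have hF0 : eval x (F i₀) ≠ 0 := fun h => hi₀ ((hZ i₀).1 h)
  have hrel : ∀ i, Polynomial.C w0 * (((e i + 1 : ℕ) : Polynomial K) * res x y (F i) -
      Polynomial.X * Polynomial.derivative (res x y (F i))) +
      Polynomial.C w1 * Polynomial.derivative (res x y (F i)) = 0 := by
    intro i
    have h1 := hres i
    rw [dir_comb, res_add, res_mul, res_mul, res_C, res_C, ← res_deriv x y (F i)] at h1
    have he := res_euler x y (hF i)
    rw [← res_deriv x y (F i)] at he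
    linear_combination h1 - Polynomial.C w0 * he
  by_cases h1 : w1 = 0
  · by_cases h0 : w0 = 0
    · rw [h0, h1]
      simp
    · exfalso
      have hr := hrel i₀
      rw [h1] at hr
      have h2 := congrArg (fun R => Polynomial.coeff R 0) hr
      simp only [map_zero, zero_mul, add_zero, Polynomial.coeff_C_mul, Polynomial.coeff_sub,
        Polynomial.coeff_zero] at h2
      have h3 : (Polynomial.X * Polynomial.derivative (res x y (F i₀))).coeff 0 = 0 := by simp
      have h4 : (((e i₀ + 1 : ℕ) : Polynomial K) * res x y (F i₀)).coeff 0 =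
          ((e i₀ + 1 : ℕ) : K) * (res x y (F i₀)).coeff 0 := by
        rw [← Polynomial.C_eq_natCast, Polynomial.coeff_C_mul]
      rw [h3, h4, res_coeff_zero, sub_zero] at h2
      rcases mul_eq_zero.mp h2 with h5 | h5
      · exact h0 h5
      · rcases mul_eq_zero.mp h5 with h6 | h6
        · exact (by exact_mod_cast Nat.succ_ne_zero (e i₀) : ((e i₀ + 1 : ℕ) : K) ≠ 0) h6
        · exact hF0 h6
  · exfalso
    apply hE
    obtain ⟨a, ha⟩ : ∃ a : K, a = -(w0 / w1) := ⟨_, rfl⟩
    have hsol : ∀ i, res x y (F i) = Polynomial.C (eval x (F i)) *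
        (1 + Polynomial.C a * Polynomial.X) ^ (e i + 1) := by
      intro i
      have hode : (1 + Polynomial.C a * Polynomial.X) *
          Polynomial.derivative (res x y (F i)) =
          Polynomial.C (((e i + 1 : ℕ) : K) * a) * res x y (F i) := by
        have h2 : Polynomial.C w1 * ((1 + Polynomial.C a * Polynomial.X) *
            Polynomial.derivative (res x y (F i)) -
            Polynomial.C (((e i + 1 : ℕ) : K) * a) * res x y (F i)) = 0 := by
          have h3 : w1 * a = -w0 := by
            rw [ha]
            field_simp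
          have h4 : Polynomial.C w1 * Polynomial.C a = -Polynomial.C w0 := by
            rw [← Polynomial.C_mul, h3, Polynomial.C_neg]
          have h5 : Polynomial.C (((e i + 1 : ℕ) : K) * a) =
              ((e i + 1 : ℕ) : Polynomial K) * Polynomial.C a := by
            rw [Polynomial.C_mul, Polynomial.C_eq_natCast]
          rw [h5]
          linear_combination hrel i + (Polynomial.X * Polynomial.derivative (res x y (F i)) -
            ((e i + 1 : ℕ) : Polynomial K) * res x y (F i)) * h4
        rcases mul_eq_zero.mp h2 with h6 | h6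
        · exfalso
          exact h1 (Polynomial.C_eq_zero.mp h6)
        · exact sub_eq_zero.mp h6
      have h7 := ode (e i + 1) a _ hode
      rw [res_coeff_zero] at h7
      exact h7
    refine ⟨fun i hi => ?_, algebraMap K _ a, 0, fun i _ => ⟨e i + 1, 0, rfl, ?_⟩⟩
    · rw [hsol, (hZ i).2 hi, Polynomial.C_0, zero_mul]
    · conv_lhs => rw [hsol]
      rw [Polynomial.map_mul, Polynomial.map_pow, Polynomial.map_C, Polynomial.map_add,
        Polynomial.map_mul, Polynomial.map_one, Polynomial.map_C, Polynomial.map_X]
      simp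

end Pool.Agent.H91.VMP
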