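import Pool.Agent.H30.VM.TargetsB
import Pool.Agent.H86.VG.ET

/-!
MP_70ba79_ag, board vmp_modules, module ETT: the line is fixed.
-/

set_option autoImplicit false

namespace Pool.Agent.H91.VMP

open MvPolynomial SC Pool.Agent.H27.LV Pool.Agent.H17.VG Pool.Agent.H30.VM
open Pool.Agent.H17.CI (Tup IlT PQT TxT frmT upT RatT)

/-- ETT -/
theorem pf_ETT (hRS : Pool.Agent.H17.VG.T_RS) (hKYT : T_KYT) (hPST : T_PST) (hIMT : T_IMT) :
    T_ETT := by
  intro R K _ _ _ _ n ι _ i₀ e F D Z x y ξ hi₀ hS hPt hxy m hm hnm hξx hξy Q τ' l' a' hQ hτF hτx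
  by_contra hη
  obtain ⟨-, hfin, hP3⟩ := hPST R K n ι i₀ e F D Z x y hi₀ hS hPt hxy m hm
  obtain ⟨YY, hYY⟩ : ∃ YY, YY = YlT R i₀ e F x y (UtT R i₀ F x (IlT e x y)) := ⟨_, rfl⟩
  obtain ⟨q, hq⟩ : ∃ q : ι → Polynomial K, q = fun i => res x y (Q i) := ⟨_, rfl⟩
  have hkey : ∀ G ∈ IlT e x y, ∀ (s : Op R K n) (l : ι → K) (a : K), Sym i₀ F s l G →
      opV s x = a • x → (fun i => res x y (dir (opV τ' y) (G i))) ∈
        YY ⊔ Submodule.span K {q} := by
    intro G hG s l a hsF hsx
    have hGi : ∀ i, (G i).IsHomogeneous (e i + 1) ∧ res x y (G i) = 0 := fun i =>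
      et_il hRS (hG i (Set.mem_univ i))
    obtain ⟨⟨b, hb⟩, l'', G'', hbr, hres⟩ := hKYT R K n ι i₀ e F D x y ξ hS hξx hξy Q G s τ' l l'
      a a' hQ hτF hτx hsF (fun i => (hGi i).2) hsx
    have hP : (fun i => res x y (dir (opV τ' y) (G i)) -
        Polynomial.C (∑ i, ξ i * opV s y i) * res x y (Q i)) ∈ YY := by
      rw [hYY]
      refine Submodule.subset_span ⟨?_, brk s τ', l'', G'', hbr, hres, ?_⟩
      · intro i
        have h1 := (hRS K n (e i) (G i) (G i) (opV τ' y) x x x y 0 0).2.2.2.2.2.2.2.2.2.2.2.2.1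
          (hGi i).1
        have h2 := (hRS K n (e i) (dir (opV τ' y) (G i)) (G i) x x x x y 0 0).2.2.2.2.2.2.2.2.2.2.2.1
          h1
        have h3 := (hRS K n (e i) (Q i) (G i) x x x x y 0 0).2.2.2.2.2.2.2.2.2.2.2.1 (hQ i)
        exact (Polynomial.natDegree_sub_le _ _).trans
          (max_le h2 ((Polynomial.natDegree_C_mul_le _ _).trans h3))
      · rw [hb]
        exact Submodule.smul_mem _ _ (Submodule.subset_span (Or.inr rfl))
    have h4 : (fun i => res x y (dir (opV τ' y) (G i))) =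
        (fun i => res x y (dir (opV τ' y) (G i)) -
          Polynomial.C (∑ i, ξ i * opV s y i) * res x y (Q i)) +
          (∑ i, ξ i * opV s y i) • q := by
      funext i
      rw [Pi.add_apply, Pi.smul_apply, hq, Polynomial.smul_eq_C_mul]
      ring
    rw [h4]
    exact Submodule.add_mem_sup hP
      (Submodule.smul_mem _ _ (Submodule.mem_span_singleton_self _))
  rw [← hYY] at hfin hP3
  have hfin' : FiniteDimensional K ↥(Submodule.span K {q}) :=
    FiniteDimensional.span_singleton K _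
  have h1 := hIMT R K n ι i₀ e F D Z x y (opV τ' y) hS hPt hxy hη
    (YY ⊔ Submodule.span K {q}) (Submodule.finiteDimensional_sup _ _) hkey
  have h2 := Submodule.finrank_add_le_finrank_add_finrank YY (Submodule.span K {q})
  have h3 : Module.finrank K ↥(Submodule.span K {q}) ≤ 1 := by
    have := finrank_span_le_card (R := K) ({q} : Set (ι → Polynomial K))
    simpa using this
  omega

end Pool.Agent.H91.VMP
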