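import Pool.Agent.H30.VM.TargetsD
import Pool.Agent.H1.CI.GRT

/-!
MP_70ba79_ag, board vmp_modules, module GRT: gradients of forms with normal crossings.
-/

set_option autoImplicit false

namespace Pool.Agent.H91.VMP

open MvPolynomial SC Pool.Agent.H27.LV Pool.Agent.H17.VG Pool.Agent.H30.VM
open Pool.Agent.H17.CI (Tup IlT PQT TxT frmT upT RatT)
open Pool.Agent.H1.CI (Rd exists_cols Rd.det Rd.unit)

theorem pf_GRT : T_GRT := by
  classical
  intro k K _ _ _ _ _ _ htr n ι _ e F hF hNC x p hp v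
  obtain ⟨b, hb0, hb⟩ := Pool.Agent.H92.VG.exists_pole3 v x p hp
  obtain ⟨q, hq⟩ : ∃ q : ℕ, q = poleOrder v x := ⟨_, rfl⟩
  rw [← hq] at hb ⊢
  have hu0 := v.unif_ne_zero
  obtain ⟨t, ht⟩ : ∃ t : K, t = v.unif ^ q := ⟨_, rfl⟩
  have ht0 : t ≠ 0 := by rw [ht]; exact pow_ne_zero _ hu0
  have hto : v.ord t = q := by
    rw [ht, v.ord_pow, v.ord_unif, mul_one]
  have hz : ∀ i, 0 ≤ v.ord (t * x i) := by
    intro i
    by_cases h0 : x i = 0
    · rw [h0, mul_zero, v.ord_zero]
    · rw [v.ord_mul' ht0 h0, hto]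
      have := npole_le v x i
      rw [← hq] at this
      omega
  choose a ha using fun i => (rat k K htr v).2 (t * x i) (hz i)
  have ha0 : a ≠ 0 := by
    intro h
    have h1 := ha b
    rw [h] at h1
    simp only [Pi.zero_apply, map_zero, sub_zero] at h1
    rcases h1 with h1 | h1
    · exact (mul_ne_zero ht0 hb0) h1
    · rw [v.ord_mul' ht0 hb0, hto, hb] at h1
      omega
  have hred : ∀ G : MvPolynomial (Fin (n + 1)) k,
      Rd v (eval (fun i => t * x i) (up K G)) (eval a G) :=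
    fun G => Pool.Agent.H92.VG.eval_red v _ a hz ha G
  have hscale : ∀ (G : MvPolynomial (Fin (n + 1)) k) (d : ℕ), G.IsHomogeneous d →
      eval x (up K G) = (t ^ d)⁻¹ * eval (fun i => t * x i) (up K G) := by
    intro G d hG
    have hG' : (up K G).IsHomogeneous d := hG.map _
    rw [Pool.Agent.H92.VG.eval_scale hG', inv_mul_cancel_left₀ (pow_ne_zero _ ht0)]
  have hinv : ∀ d : ℕ, v.ord ((t ^ d)⁻¹) = -(d * q : ℤ) := by
    intro d
    rw [v.ord_inv, v.ord_pow, hto]
  have hder : ∀ i j, pderiv j (upT K F i) = up K (pderiv j (F i)) := by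
    intro i j
    show pderiv j (up K (F i)) = _
    unfold up
    rw [pderiv_map]
  have hhom : ∀ i j, (pderiv j (F i)).IsHomogeneous (e i) := by
    intro i j
    have h := (hF i).pderiv (i := j)
    rwa [Nat.add_sub_cancel] at h
  constructor
  · intro i j
    rw [hder, hscale _ _ (hhom i j)]
    have h2 : ge v (-(e i * q : ℤ)) ((t ^ e i)⁻¹) := Or.inr (hinv _).ge
    have h3 := h2.mul (hred (pderiv j (F i))).1
    rwa [add_zero] at h3
  · let A : Finset ι := Finset.univ.filter fun i => eval a (F i) = 0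
    have hA : ∀ i ∈ A, eval a (F i) = 0 := fun i hi => (Finset.mem_filter.1 hi).2
    obtain ⟨J, hJ, hdet⟩ := exists_cols _ (hNC a ha0 A hA)
    have hgJ : gJ (upT K F) x J = (t ^ (∑ i ∈ A, e i))⁻¹ *
        (Matrix.of fun i i' : A =>
          eval (fun i => t * x i) (up K (pderiv (J i') (F i)))).det := by
      have h1 : gJ (upT K F) x J = (Matrix.of fun i i' : A => (t ^ e i)⁻¹ *
          (Matrix.of fun i i' : A =>
            eval (fun i => t * x i) (up K (pderiv (J i') (F i)))) i i').det := by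
        unfold gJ
        simp only [hder, hscale _ _ (hhom _ _), Matrix.of_apply]
      rw [h1, Matrix.det_mul_column]
      congr 1
      rw [Finset.prod_inv_distrib, Finset.prod_pow_eq_pow_sum, Finset.sum_coe_sort A e]
    have hdr := Rd.det (v := v) (Matrix.of fun i i' : A =>
      eval (fun i => t * x i) (up K (pderiv (J i') (F i))))
      (Matrix.of fun i i' : A => eval a (pderiv (J i') (F i))) (fun i i' => hred _)
    obtain ⟨hd1, hd2⟩ := hdr.unit hdet
    refine ⟨A, J, hJ, ?_, ?_, ?_⟩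
    · rw [hgJ]
      exact mul_ne_zero (inv_ne_zero (pow_ne_zero _ ht0)) hd1
    · rw [hgJ, v.ord_mul' (inv_ne_zero (pow_ne_zero _ ht0)) hd1, hinv, hd2, add_zero]
    · intro i hi
      have hi' : eval a (F i) ≠ 0 := fun h => hi (Finset.mem_filter.2 ⟨Finset.mem_univ _, h⟩)
      obtain ⟨h1, h2⟩ := (hred (F i)).unit hi'
      have h3 : eval x (upT K F i) = (t ^ (e i + 1))⁻¹ *
          eval (fun i => t * x i) (up K (F i)) := hscale _ _ (hF i)
      rw [h3]
      refine ⟨mul_ne_zero (inv_ne_zero (pow_ne_zero _ ht0)) h1, ?_⟩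
      rw [v.ord_mul' (inv_ne_zero (pow_ne_zero _ ht0)) h1, hinv, h2, add_zero]

end Pool.Agent.H91.VMP
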