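import Pool.Agent.H30.VM.TargetsF
import Pool.Agent.H30.VGH.LHA
import Pool.Agent.H27.LV.LVX

/-!
# MP_70ba79_ag: row ROT of the board `vmp_modules`: zeros of a form on a line of small height

Compare `Pool/Agent/H52/CI/ROT.lean`.
-/

set_option autoImplicit false

namespace Pool.Agent.H91.VMP

open SC Pool.Agent.H27.LV Pool.Agent.H17.VG Pool.Agent.H30.VM
open Pool.Agent.H22.VGH (gadd gmul gsum gord)
open Pool.Agent.H30.VGH (Cge aff aff_eval aff_Cge eval_smul_homog)

section

variable {k K : Type} [Field k] [Field K] [Algebra k K]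

/-- poles of a root of a polynomial -/
private lemma root_pole (v : DV k K) {P : Polynomial K} (hP : P ≠ 0) {τ : K} (h : P.eval τ = 0) {a : ℤ}
    (ha : Cge v (-a) P) :
    0 ≤ v.ord P.leadingCoeff + a ∧ -(v.ord τ) ≤ v.ord P.leadingCoeff + a := by
  have hc : P.leadingCoeff ≠ 0 := Polynomial.leadingCoeff_ne_zero.2 hP
  have h0 : 0 ≤ v.ord P.leadingCoeff + a := by
    have := (ha P.natDegree).resolve_left hc
    rw [Polynomial.coeff_natDegree] at this
    omega
  refine ⟨h0, ?_⟩
  by_cases hτ : 0 ≤ v.ord τ
  · omega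
  push Not at hτ
  have hτ0 : τ ≠ 0 := by
    rintro rfl
    rw [v.ord_zero] at hτ
    omega
  rw [Polynomial.eval_eq_sum_range, Finset.sum_range_succ, Polynomial.coeff_natDegree] at h
  have h1 : P.leadingCoeff * τ ^ P.natDegree =
      -∑ i ∈ Finset.range P.natDegree, P.coeff i * τ ^ i := by linear_combination h
  have h2 : ge v (-a + ((P.natDegree : ℤ) - 1) * v.ord τ)
      (∑ i ∈ Finset.range P.natDegree, P.coeff i * τ ^ i) := by
    refine gsum _ _ _ fun i hi => ?_
    have h3 := gmul (ha i) (gord (v := v) (x := τ ^ i))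
    refine h3.mono ?_
    rw [v.ord_pow]
    have h4 : (i : ℤ) ≤ (P.natDegree : ℤ) - 1 := by
      have := Finset.mem_range.1 hi
      omega
    nlinarith
  have h3 : ge v (-a + ((P.natDegree : ℤ) - 1) * v.ord τ) (P.leadingCoeff * τ ^ P.natDegree) := by
    rw [h1]
    exact h2.neg
  have h4 := h3.resolve_left (mul_ne_zero hc (pow_ne_zero _ hτ0))
  rw [v.ord_mul' hc (pow_ne_zero _ hτ0), v.ord_pow] at h4
  linarith

end

section

variable {k K : Type} [Field k] [IsAlgClosed k] [CharZero k] [Field K] [Algebra k K]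
  [Algebra.EssFiniteType k K]

/-- comparison of a degree with the degree of a line -/
private lemma deg_le_of (htr : Algebra.trdeg k K = 1) {m : ℕ} {ι : Type} [Fintype ι]
    (x : Fin (m + 1) → K) (p : Fin (m + 1)) (hx0 : x p = 1) (q : ι → K) (u w : K) (C : ℕ)
    (h : ∀ (v : DV k K) l, ge v (-(v.ord u + C * poleOrder v q - v.ord w)) (x l)) :
    (deg k x : ℤ) ≤ C * deg k q := by
  have hN : ∀ v : DV k K, 0 ≤ v.ord u + C * (poleOrder v q : ℤ) - v.ord w := by
    intro v
    have h1 := h v p
    rw [hx0] at h1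
    have h2 := h1.resolve_left one_ne_zero
    rw [v.ord_one] at h2
    omega
  have hpole : ∀ v : DV k K, (poleOrder v x : ℤ) ≤
      v.ord u + C * (poleOrder v q : ℤ) - v.ord w := by
    intro v
    have h2 := poleOrder_le v x (v.ord u + C * (poleOrder v q : ℤ) - v.ord w).toNat (fun l => by
      rw [Int.toNat_of_nonneg (hN v)]
      rcases h v l with h1 | h1
      · rw [h1, v.ord_zero]
        have := hN v
        omega
      · exact h1)
    have h4 : (poleOrder v x : ℤ) ≤
        (((v.ord u + C * (poleOrder v q : ℤ) - v.ord w).toNat : ℕ) : ℤ) := by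
      exact_mod_cast h2
    rw [Int.toNat_of_nonneg (hN v)] at h4
    exact h4
  have f1 : (Function.support fun v : DV k K => (poleOrder v x : ℤ)).Finite := by
    refine (pfi k K htr _ x).subset fun v hv => ?_
    simpa using hv
  have f2 : (Function.support fun v : DV k K => (C : ℤ) * (poleOrder v q : ℤ)).Finite := by
    refine (pfi k K htr _ q).subset fun v hv => ?_
    have h1 := right_ne_zero_of_mul hv
    simpa using h1
  have f3 : (Function.support fun v : DV k K => v.ord u).Finite := (pfm k K htr u).1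
  have f4 : (Function.support fun v : DV k K => v.ord w).Finite := (pfm k K htr w).1
  have f5 : (Function.support fun v : DV k K =>
      v.ord u + (C : ℤ) * (poleOrder v q : ℤ)).Finite :=
    (f3.union f2).subset (Function.support_add _ _)
  have f6 : (Function.support fun v : DV k K =>
      v.ord u + (C : ℤ) * (poleOrder v q : ℤ) - v.ord w).Finite :=
    (f5.union f4).subset (Function.support_sub _ _)
  have h1 : 0 ≤ ∑ᶠ v : DV k K, (v.ord u + (C : ℤ) * (poleOrder v q : ℤ) - v.ord w -
      poleOrder v x) := by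
    refine finsum_nonneg fun v => ?_
    have := hpole v
    linarith
  rw [finsum_sub_distrib f6 f1, finsum_sub_distrib f5 f4, finsum_add_distrib f3 f2,
    (pfm k K htr u).2, (pfm k K htr w).2, ← mul_finsum, ← cast_deg htr, ← cast_deg htr] at h1
  linarith

end

open MvPolynomial in
theorem pf_ROT : T_ROT := by
  intro n d
  refine ⟨d + 1, ?_⟩
  intro k K _ _ _ _ _ _ htr F hF x y p a b hx0 _ hP0 hFx hres
  have hK0 : CharZero K := charZero_of_injective_algebraMap (algebraMap k K).injective
  obtain ⟨FK, hFK⟩ : ∃ FK, FK = up K F := ⟨_, rfl⟩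
  have hFKh : FK.IsHomogeneous d := by rw [hFK]; exact hF.map _
  rw [← hFK] at hFx hres
  obtain ⟨P0, hP0d⟩ : ∃ P0, P0 = x a * y b - x b * y a := ⟨_, rfl⟩
  obtain ⟨q, hq⟩ : ∃ q : Fin (n + 1) × Fin (n + 1) → K,
    q = fun ij => (x ij.1 * y ij.2 - x ij.2 * y ij.1) / P0 := ⟨_, rfl⟩
  have hln1 : hln k x y a b = deg k q := by
    rw [hq, hP0d]
    rfl
  rw [← hP0d] at hP0
  rw [hln1]
  obtain ⟨A, hA⟩ : ∃ A : Fin (n + 1) → K, A = fun l => q (l, b) := ⟨_, rfl⟩
  obtain ⟨B, hB⟩ : ∃ B : Fin (n + 1) → K, B = fun l => q (a, l) := ⟨_, rfl⟩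
  have hAl : ∀ l, A l = (x l * y b - x b * y l) / P0 := fun l => by rw [hA, hq]
  have hBl : ∀ l, B l = (x a * y l - x l * y a) / P0 := fun l => by rw [hB, hq]
  have hxAB : ∀ l, x l = x a * A l + x b * B l := by
    intro l
    rw [hAl, hBl]
    field_simp
    rw [hP0d]
    ring
  have hyAB : ∀ l, y l = y a * A l + y b * B l := by
    intro l
    rw [hAl, hBl]
    field_simp
    rw [hP0d]
    ring
  have hAg : ∀ (v : DV k K) l, ge v (-(poleOrder v q : ℤ)) (A l) := by
    intro v l
    rw [hA]
    exact Or.inr (npole_le v q (l, b))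
  have hBg : ∀ (v : DV k K) l, ge v (-(poleOrder v q : ℤ)) (B l) := by
    intro v l
    rw [hB]
    exact Or.inr (npole_le v q (a, l))
  by_cases hxb : x b = 0
  · -- `x` is proportional to `A`
    refine deg_le_of htr x p hx0 q 1 (x a) (d + 1) fun v l => ?_
    rw [hxAB l, hxb, zero_mul, add_zero, v.ord_one]
    refine (gmul (gord (v := v) (x := x a)) (hAg v l)).mono ?_
    have h1 : (0 : ℤ) ≤ (d : ℤ) * poleOrder v q := by positivity
    push_cast
    linarith
  · obtain ⟨τ, hτ⟩ : ∃ τ, τ = x a / x b := ⟨_, rfl⟩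
    obtain ⟨P, hP⟩ : ∃ P, P = aff FK A B := ⟨_, rfl⟩
    have hPτ : P.eval τ = 0 := by
      have h1 : x = fun l => x b * (A l * τ + B l) := by
        funext l
        rw [hxAB l, hτ]
        field_simp
      have h2 := eval_smul_homog hFKh (x b) (fun l => A l * τ + B l)
      rw [← h1, hFx] at h2
      rw [hP, aff_eval]
      exact (mul_eq_zero.1 h2.symm).resolve_left (pow_ne_zero _ hxb)
    have hPne : P ≠ 0 := by
      intro hP1
      have hres1 : res x y FK = aff FK y x := by
        unfold res aff
        congr 2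
        funext l
        rw [add_comm]
      have hw0 : (Polynomial.C (x b) + Polynomial.C (y b) * Polynomial.X : Polynomial K) ≠ 0 := by
        intro h0
        have h1 := congrArg (fun p => Polynomial.eval 0 p) h0
        simp at h1
        exact hxb h1
      have h3 : res x y FK * (Polynomial.C (x b) + Polynomial.C (y b) * Polynomial.X) = 0 := by
        apply Polynomial.funext
        intro c
        rw [Polynomial.eval_mul, Polynomial.eval_zero, hres1, aff_eval]
        simp only [Polynomial.eval_add, Polynomial.eval_C, Polynomial.eval_mul,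
          Polynomial.eval_X]
        obtain ⟨w, hw⟩ : ∃ w, w = x b + y b * c := ⟨_, rfl⟩
        rw [← hw]
        by_cases hw1 : w = 0
        · rw [hw1, mul_zero]
        · have h1 : (fun l => y l * c + x l) =
              fun l => w * (A l * ((x a + y a * c) / w) + B l) := by
            funext l
            rw [hxAB l, hyAB l]
            field_simp
            rw [hw]
            ring
          rw [h1, eval_smul_homog hFKh, ← aff_eval, ← hP, hP1, Polynomial.eval_zero, mul_zero,
            zero_mul]
      rcases mul_eq_zero.1 h3 with h4 | h4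
      · exact hres h4
      · exact hw0 h4
    refine deg_le_of htr x p hx0 q P.leadingCoeff (x b) (d + 1) fun v l => ?_
    have hC : Cge v (-((d : ℤ) * poleOrder v q)) P := by
      rw [hP, hFK]
      exact aff_Cge v hF A B (hAg v) (hBg v)
    obtain ⟨h1, h2⟩ := root_pole v hPne hPτ hC
    obtain ⟨s, hs⟩ : ∃ s : ℤ, s = v.ord P.leadingCoeff + d * poleOrder v q := ⟨_, rfl⟩
    rw [← hs] at h1 h2
    have h3 : x l = x b * (τ * A l + B l) := by
      rw [hτ]
      conv_lhs => rw [hxAB l]
      field_simp
    have h4 : ge v (-s) τ := (gord (v := v) (x := τ)).mono (by omega)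
    have h5 : ge v (-s + -(poleOrder v q : ℤ)) (τ * A l + B l) :=
      gadd (gmul h4 (hAg v l)) ((hBg v l).mono (by omega))
    rw [h3]
    refine (gmul (gord (v := v) (x := x b)) h5).mono ?_
    rw [hs]
    push_cast
    linarith

end Pool.Agent.H91.VMP
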