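import Pool.Agent.H30.VM.TargetsB

/-!
MP_70ba79_ag, board vmp_modules, module SUT: tangent vectors are velocities, up to multiples of `x`.
-/

set_option autoImplicit false

namespace Pool.Agent.H91.VMP

open MvPolynomial SC Pool.Agent.H27.LV Pool.Agent.H17.VG Pool.Agent.H30.VM
open Pool.Agent.H17.CI (Tup IlT PQT TxT frmT upT RatT)

private theorem eval_dir {K : Type} [Field K] {n : ℕ} (x w : Fin (n + 1) → K)
    (G : MvPolynomial (Fin (n + 1)) K) :
    eval x (dir w G) = ∑ j, w j * eval x (pderiv j G) := by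
  simp [dir, map_sum]

theorem pf_SUT (hEV : Pool.Agent.H17.VG.T_EV) (hRS : Pool.Agent.H17.VG.T_RS) : T_SUT := by
  intro R K _ _ _ _ n ι i₀ e F D Z x hi₀ hS hP w hw
  classical
  have hxne : x ≠ 0 := by
    have h := hP.dx.ne_zero 0
    simpa using h
  obtain ⟨p, hp⟩ : ∃ p, x p ≠ 0 := by
    by_contra hcon
    push Not at hcon
    exact hxne (funext hcon)
  -- Euler
  have heu : ∀ i, eval x (dir x (F i)) = ((e i + 1 : ℕ) : K) * eval x (F i) := by
    intro i
    obtain ⟨-, -, -, -, -, -, -, -, -, h, -⟩ := hRS K n (e i + 1) (F i) 0 0 0 0 x 0 0 0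
    exact h (hS.homog i)
  have he0 : ((e i₀ + 1 : ℕ) : K) ≠ 0 := by exact_mod_cast Nat.succ_ne_zero (e i₀)
  have hF0 : eval x (F i₀) ≠ 0 := fun h => hi₀ ((hP.on i₀).1 h)
  obtain ⟨c, hc⟩ : ∃ c : K, c = -(eval x (dir w (F i₀)) /
      (((e i₀ + 1 : ℕ) : K) * eval x (F i₀))) := ⟨_, rfl⟩
  have hdir : ∀ i, eval x (dir (w + c • x) (F i)) =
      eval x (dir w (F i)) + c * (((e i + 1 : ℕ) : K) * eval x (F i)) := by
    intro i
    obtain ⟨-, -, -, -, -, -, h, -⟩ := hRS K n 0 (F i) 0 w x 0 0 0 1 c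
    rw [one_smul] at h
    rw [h, map_add, map_mul, map_mul, eval_C, eval_C, one_mul, heu]
  have hz0 : eval x (dir (w + c • x) (F i₀)) = 0 := by
    rw [hdir, hc]
    field_simp
    ring
  let τ : Op R K n := (0, Matrix.of fun i j => if j = p then -((w + c • x) i / x p) else 0)
  have hτx : opV τ x = w + c • x := by
    funext i
    simp only [opV, τ, Derivation.coe_zero, Pi.zero_apply, Matrix.of_apply, ite_mul, zero_mul,
      Finset.sum_ite_eq', Finset.mem_univ, if_true]
    field_simp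
    ring
  let l : ι → K := fun i => if i ∈ Z then 0 else eval x (dir (w + c • x) (F i)) / eval x (F i)
  let G : Tup ι K n := fun i => opF τ (F i) + C (l i) * F i
  have hsym : Sym i₀ F τ l G := by
    refine ⟨?_, fun i => rfl⟩
    simp only [l, if_neg hi₀, hz0, zero_div]
  refine ⟨τ, l, G, c, hsym, ?_, hτx⟩
  intro i
  have h1 := hEV R K n τ (F i) x
  rw [hτx] at h1
  have h0 : τ.1 (eval x (F i)) = 0 := by simp [τ]
  rw [h0] at h1
  have h2 : eval x (G i) = eval x (opF τ (F i)) + l i * eval x (F i) := by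
    simp only [G, map_add, map_mul, eval_C]
  rw [h2]
  by_cases hi : i ∈ Z
  · have h3 : eval x (dir w (F i)) = 0 := by
      rw [eval_dir]
      exact hw i hi
    rw [hdir, (hP.on i).2 hi, h3] at h1
    rw [(hP.on i).2 hi]
    linear_combination -h1
  · have h3 : eval x (F i) ≠ 0 := fun h => hi ((hP.on i).1 h)
    have h4 : l i * eval x (F i) = eval x (dir (w + c • x) (F i)) := by
      simp only [l, if_neg hi]
      exact div_mul_cancel₀ _ h3
    rw [h4]
    exact h1.symm

end Pool.Agent.H91.VMP
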