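import Pool.Agent.H30.VM.TargetsG

/-!
# MP_70ba79_ag: the equations of the exceptional lines (row XPO of the board `vmp_modules`)

Compare `Pool/Agent/H33/CI/XPO.lean`.
-/

set_option autoImplicit false

namespace Pool.Agent.H91.VMP

open MvPolynomial SC Pool.Agent.H27.LV Pool.Agent.H17.VG Pool.Agent.H30.VM
open Pool.Agent.H17.CI (Tup IlT PQT TxT frmT upT RatT)

private lemma res_coeff_zero_XPO {K : Type} [Field K] {n : ℕ} (x y : Fin (n + 1) → K)
    (G : MvPolynomial (Fin (n + 1)) K) : (res x y G).coeff 0 = eval x G := by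
  rw [Polynomial.coeff_zero_eq_aeval_zero]
  unfold res
  rw [MvPolynomial.comp_aeval_apply]
  have h : (fun i => Polynomial.aeval (0 : K) (Polynomial.C (x i) +
      Polynomial.C (y i) * Polynomial.X)) = x := by
    funext i
    simp
  rw [h]
  rfl

theorem pf_XPO : T_XPO := by
  intro k _ n ι _ F Z q a b
  obtain ⟨xh, hxh⟩ : ∃ xh : Fin (n + 1) → MvPolynomial (Fin n ⊕ (Fin n ⊕ Fin 2)) k,
      xh = Fin.cons 1 fun j => X (Sum.inl j) := ⟨_, rfl⟩
  obtain ⟨yh, hyh⟩ : ∃ yh : Fin (n + 1) → MvPolynomial (Fin n ⊕ (Fin n ⊕ Fin 2)) k,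
      yh = Fin.cons 0 fun j => X (Sum.inr (Sum.inl j)) := ⟨_, rfl⟩
  obtain ⟨al, hal⟩ : ∃ al : Fin 2 → MvPolynomial (Fin n ⊕ (Fin n ⊕ Fin 2)) k,
      al = fun j => X (Sum.inr (Sum.inr j)) := ⟨_, rfl⟩
  obtain ⟨P, hP⟩ : ∃ P : ι → Polynomial (MvPolynomial (Fin n ⊕ (Fin n ⊕ Fin 2)) k),
      P = fun i => aeval (fun j => Polynomial.C (xh j) + Polynomial.C (yh j) * Polynomial.X) (F i) :=
    ⟨_, rfl⟩
  obtain ⟨Q, hQ⟩ : ∃ Q : ι → Polynomial (MvPolynomial (Fin n ⊕ (Fin n ⊕ Fin 2)) k),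
      Q = fun i => P i - Polynomial.C ((P i).coeff 0) *
        (1 + Polynomial.C (al 0) * Polynomial.X) ^ a i *
        (1 + Polynomial.C (al 1) * Polynomial.X) ^ b i := ⟨_, rfl⟩
  refine ⟨{X (Sum.inr (Sum.inl q)) - 1} ∪ ({f | ∃ i ∈ Z, ∃ m, f = (P i).coeff m} ∪
    {f | ∃ i, i ∉ Z ∧ ∃ m, f = (Q i).coeff m}), ?_⟩
  intro K _ _ x y α
  obtain ⟨φ, hφ⟩ : ∃ φ : MvPolynomial (Fin n ⊕ (Fin n ⊕ Fin 2)) k →ₐ[k] K,
      φ = aeval (Sum.elim x (Sum.elim y α)) := ⟨_, rfl⟩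
  rw [← hφ]
  have hx : ∀ j, φ (xh j) = (Fin.cons 1 x : Fin (n + 1) → K) j := by
    intro j
    rw [hxh, hφ]
    refine Fin.cases ?_ (fun i => ?_) j
    · simp
    · simp
  have hy : ∀ j, φ (yh j) = (Fin.cons 0 y : Fin (n + 1) → K) j := by
    intro j
    rw [hyh, hφ]
    refine Fin.cases ?_ (fun i => ?_) j
    · simp
    · simp
  have ha : ∀ j, φ (al j) = α j := by
    intro j
    rw [hal, hφ]
    simp
  have hmap : ∀ i, (P i).map (φ : MvPolynomial (Fin n ⊕ (Fin n ⊕ Fin 2)) k →+* K) =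
      res (Fin.cons 1 x : Fin (n + 1) → K) (Fin.cons 0 y) (upT K F i) := by
    intro i
    have h1 : (P i).map (φ : MvPolynomial (Fin n ⊕ (Fin n ⊕ Fin 2)) k →+* K) =
        Polynomial.mapAlgHom φ (P i) := rfl
    rw [h1, hP]
    simp only
    rw [MvPolynomial.comp_aeval_apply]
    unfold res upT up
    rw [MvPolynomial.aeval_map_algebraMap]
    congr 2
    funext j
    rw [map_add, map_mul]
    simp only [Polynomial.coe_mapAlgHom, Polynomial.map_C, Polynomial.map_X]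
    rw [← hx j, ← hy j]
    rfl
  have hcoef : ∀ i m, φ ((P i).coeff m) = 0 ↔
      (res (Fin.cons 1 x : Fin (n + 1) → K) (Fin.cons 0 y) (upT K F i)).coeff m = 0 := by
    intro i m
    rw [← hmap i, Polynomial.coeff_map]
    rfl
  have hQmap : ∀ i, (Q i).map (φ : MvPolynomial (Fin n ⊕ (Fin n ⊕ Fin 2)) k →+* K) =
      res (Fin.cons 1 x : Fin (n + 1) → K) (Fin.cons 0 y) (upT K F i) -
        Polynomial.C (eval (Fin.cons 1 x : Fin (n + 1) → K) (upT K F i)) *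
          (1 + Polynomial.C (α 0) * Polynomial.X) ^ a i *
          (1 + Polynomial.C (α 1) * Polynomial.X) ^ b i := by
    intro i
    rw [hQ]
    simp only [Polynomial.map_sub, Polynomial.map_mul, Polynomial.map_pow, Polynomial.map_add,
      Polynomial.map_one, Polynomial.map_C, Polynomial.map_X]
    rw [hmap i, ← res_coeff_zero_XPO _ (Fin.cons 0 y) (upT K F i), ← hmap i, Polynomial.coeff_map]
    have h2 : ∀ j, (φ : MvPolynomial (Fin n ⊕ (Fin n ⊕ Fin 2)) k →+* K) (al j) = α j := ha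
    rw [h2 0, h2 1]
  constructor
  · intro h
    refine ⟨?_, fun i hi => ?_, fun i hi => ?_⟩
    · have h1 := h _ (Or.inl rfl)
      rw [hφ, map_sub, map_one, aeval_X, Sum.elim_inr, Sum.elim_inl] at h1
      exact sub_eq_zero.1 h1
    · ext m
      rw [Polynomial.coeff_zero]
      exact (hcoef i m).1 (h _ (Or.inr (Or.inl ⟨i, hi, m, rfl⟩)))
    · rw [← sub_eq_zero, ← hQmap i]
      ext m
      rw [Polynomial.coeff_zero, Polynomial.coeff_map]
      exact h _ (Or.inr (Or.inr ⟨i, hi, m, rfl⟩))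
  · rintro ⟨h1, h2, h3⟩ f (rfl | ⟨i, hi, m, rfl⟩ | ⟨i, hi, m, rfl⟩)
    · rw [hφ, map_sub, map_one, aeval_X, Sum.elim_inr, Sum.elim_inl, h1, sub_self]
    · rw [hcoef i m, h2 i hi, Polynomial.coeff_zero]
    · have h4 := hQmap i
      rw [h3 i hi, sub_self] at h4
      have h5 := congrArg (fun p => Polynomial.coeff p m) h4
      simp only [Polynomial.coeff_map, Polynomial.coeff_zero] at h5
      exact h5

end Pool.Agent.H91.VMP
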